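import Pool.Agent.Y630.TG.RcFault
import Pool.Agent.W906.MU.Final

/-! Unique games whose constraints are hidden in random faults. -/

set_option autoImplicit false

namespace Pool.Agent.R900.FN

open Finset Pool.Agent.Y630.NW Pool.Agent.Y630.TF Pool.Agent.Y630.TR Pool.Agent.W969.MC
open Pool.Agent.W906.MU (Con Game Sat NoI YesI inputs Separates)

/-- the two definitions of circuits agree -/
theorem prog_conv {I : Type} {inp : Set (I → ℝ)} {l : List (I → ℝ)} (h : H630VC.Prog inp l) :
    Pool.Agent.W906.MU.Prog inp l := by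
  induction h with
  | nil => exact Pool.Agent.W906.MU.Prog.nil
  | input _ hf ih => exact Pool.Agent.W906.MU.Prog.input ih hf
  | gate _ hφ hf hg ih => exact Pool.Agent.W906.MU.Prog.gate ih hφ hf hg

section
variable {N q K : ℕ} [NeZero K]

open Classical in
/-- the bits of a game -/
noncomputable def encU (I : Game N q) : Con N q → Bool := fun e => decide (e ∈ I)

lemma encU_true {I : Game N q} {e : Con N q} : encU I e = true ↔ e ∈ I := by
  unfold encU
  rw [decide_eq_true_iff]

/-- the game with tags -/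
noncomputable def hostU (I : Game N q) (τ : Con N q → Fin K) : Con N q × Fin K → Bool :=
  host (Function.Embedding.refl _) (fun _ => false) τ (encU I)

lemma hostU_true {I : Game N q} {τ : Con N q → Fin K} {e : Con N q × Fin K} :
    hostU I τ e = true ↔ τ e.1 = e.2 ∧ e.1 ∈ I := by
  unfold hostU
  rw [host_true]
  constructor
  · rintro (h | ⟨x, h1, h2⟩)
    · exact absurd h (by simp)
    · have h3 : (x, τ x) = e := h2
      rw [← h3]
      exact ⟨rfl, encU_true.mp h1⟩
  · rintro ⟨h1, h2⟩
    exact Or.inr ⟨e.1, encU_true.mpr h2, Prod.ext rfl h1⟩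

open Classical in
lemma hostU_count (I : Game N q) (τ : Con N q → Fin K) (P : Con N q → Prop) :
    (univ.filter fun e : Con N q × Fin K => hostU I τ e = true ∧ P e.1).card =
      (I.filter fun e => P e).card := by
  symm
  refine Finset.card_bij (fun e _ => (e, τ e)) ?_ ?_ ?_
  · intro e he
    rw [Finset.mem_filter] at he
    rw [Finset.mem_filter]
    exact ⟨Finset.mem_univ _, hostU_true.mpr ⟨rfl, he.1⟩, he.2⟩
  · intro e _ e' _ h
    exact (Prod.mk.inj h).1
  · intro e he
    rw [Finset.mem_filter] at he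
    obtain ⟨h1, h2⟩ := hostU_true.mp he.2.1
    exact ⟨e.1, Finset.mem_filter.mpr ⟨h2, he.2.2⟩, Prod.ext rfl h1⟩

open Classical in
lemma hostU_card (I : Game N q) (τ : Con N q → Fin K) :
    (univ.filter fun e : Con N q × Fin K => hostU I τ e = true).card = I.card := by
  have h := hostU_count I τ (fun _ => True)
  simpa using h

end

/-- unique games with tags: the positions -/
abbrev UPos (N q K : ℕ) : Type := (Fin N × Fin N × Equiv.Perm (Fin q)) × Fin K

/-- no repeated edge -/
def UWell {N q K : ℕ} (x : UPos N q K → Bool) : Prop :=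
  ∀ e e', x e = true → x e' = true → e.1 = e'.1 → e = e'

open Classical in
/-- at least `m` edges, of which some labeling violates at most `ε m` -/
def UYesM {N q K : ℕ} (m : ℕ) (ε : ℝ) (x : UPos N q K → Bool) : Prop :=
  UWell x ∧ m ≤ (univ.filter fun e => x e = true).card ∧ ∃ A B : Fin N → Fin q,
    ((univ.filter fun e => x e = true ∧ ¬ e.1.2.2 (A e.1.1) = B e.1.2.1).card : ℝ) ≤ ε * m

open Classical in
/-- `m` edges and value at most `δ` -/
def UNoM {N q K : ℕ} (m : ℕ) (δ : ℝ) (x : UPos N q K → Bool) : Prop :=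
  UWell x ∧ (univ.filter fun e => x e = true).card = m ∧ ∀ A B : Fin N → Fin q,
    ((univ.filter fun e => x e = true ∧ e.1.2.2 (A e.1.1) = B e.1.2.1).card : ℝ) ≤ δ * m

lemma uwell_host {N q K : ℕ} [NeZero K] (I : Game N q) (τ : Con N q → Fin K) :
    UWell (hostU I τ) := by
  refine fun a b ha hb hab => ?_
  obtain ⟨h1, -⟩ := hostU_true.mp ha
  obtain ⟨h2, -⟩ := hostU_true.mp hb
  refine Prod.ext hab ?_
  rw [← h1, ← h2, hab]

open Classical in
theorem uni_fault (q : ℕ) (hq : 2 ≤ q) (δ : ℝ) (hδ : 1 / (q : ℝ) < δ) :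
    ∃ N0 : ℕ, ∀ N : ℕ, N0 ≤ N → ∃ m : ℕ, 0 < m ∧ ∀ D K : ℕ, 1 ≤ D →
    D * (2 * Real.log N + q * Real.log q + 4) ≤ K → ∀ ε : ℝ, (N : ℝ) ^ (-(1 / 139) : ℝ) ≤ ε →
    ∀ (R : Type) [Fintype R] [Nonempty R] (C : R → RC (UPos N q K × Bool)) (s : ℕ)
      (_ : ∀ ρ, (C ρ).T = ∅) (_ : ∀ ρ, (C ρ).S ≤ s)
      (_ : ∀ x : UPos N q K → Bool, UNoM m δ x →
        (4 / 5 : ℝ) * (Fintype.card R * (D : ℝ) ^ Fintype.card (UPos N q K)) ≤
        ({s : R × (UPos N q K → Fin D) | (C s.1).acc (lit x (Flt s.2))}.ncard : ℝ))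
      (_ : ∀ x : UPos N q K → Bool, UYesM m ε x →
        ({ρ : R | (C ρ).acc (lit x ∅)}.ncard : ℝ) ≤ 1 / 4 * Fintype.card R),
      (2 : ℝ) ^ ((N : ℝ) ^ (1 / 139 : ℝ)) ≤ 3 * s + 2 := by
  obtain ⟨N0, H⟩ := Pool.Agent.W906.MU.lower q (by omega) δ hδ
  refine ⟨max N0 1, ?_⟩
  intro N hN
  have hN0 : N0 ≤ N := (le_max_left _ _).trans hN
  have hN1 : 1 ≤ N := (le_max_right _ _).trans hN
  obtain ⟨m, hm, H'⟩ := H N hN0
  refine ⟨m, hm, ?_⟩
  intro D K hD hK ε hε R _ _ C s hT hs h1 h2
  have hNR : (1 : ℝ) ≤ N := by exact_mod_cast hN1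
  have hqR : (1 : ℝ) ≤ q := by exact_mod_cast (by omega : 1 ≤ q)
  have hmR : (0 : ℝ) < m := by exact_mod_cast hm
  have hDR : (1 : ℝ) ≤ D := by exact_mod_cast hD
  have hlogN : 0 ≤ Real.log N := Real.log_nonneg hNR
  have hlogq : 0 ≤ Real.log q := Real.log_nonneg hqR
  have hK0 : 0 < K := by
    have h3 : (0 : ℝ) < K := by
      refine lt_of_lt_of_le ?_ hK
      have : (0 : ℝ) < 2 * Real.log N + q * Real.log q + 4 := by positivity
      positivity
    exact_mod_cast h3
  have _ : NeZero K := ⟨hK0.ne'⟩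
  have hne : Nonempty (Con N q) := ⟨⟨⟨0, by omega⟩, ⟨0, by omega⟩, 1⟩⟩
  have hcard : (Fintype.card (Con N q) : ℝ) = (N : ℝ) ^ 2 * (q.factorial : ℝ) := by
    rw [Fintype.card_prod, Fintype.card_prod, Fintype.card_fin, Fintype.card_perm,
      Fintype.card_fin]
    push_cast
    ring
  have hfac0 : (0 : ℝ) < q.factorial := by exact_mod_cast q.factorial_pos
  have hfac : Real.log (q.factorial : ℝ) ≤ q * Real.log q := by
    rw [← Real.log_pow]
    refine Real.log_le_log hfac0 ?_
    exact_mod_cast Nat.factorial_le_pow q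
  have hbad : (Fintype.card (Con N q) : ℝ) * (1 - 1 / (D : ℝ)) ^ K ≤ 1 / 40 := by
    refine Pool.Agent.Y630.TG.places_bad hD (by rw [hcard]; positivity) ?_
    rw [hcard, Real.log_mul (by positivity) (by positivity), Real.log_pow]
    push_cast
    refine le_trans (mul_le_mul_of_nonneg_left ?_ (by linarith)) hK
    linarith
  obtain ⟨l, hprog, hlen, f, hf, hdec⟩ := Pool.Agent.Y630.TG.rc_fault (I := Game N q)
    (X := Con N q) (inputs N q) (fun I => encU I) (fun x => by
      left
      refine ⟨x, ?_⟩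
      funext I
      unfold Pool.Agent.H560R2.bit
      by_cases h3 : x ∈ I
      · rw [if_pos h3, if_pos (encU_true.mpr h3)]
      · rw [if_neg h3, if_neg (fun h4 => h3 (encU_true.mp h4))])
    (fun c => Or.inr ⟨c, rfl⟩) (NoI m δ) (YesI m ε) hK0 hD C hT hbad
    (fun I hI τ => by
      refine h1 _ ⟨uwell_host I τ, ?_, ?_⟩
      · rw [← hI.1]
        have e2 := hostU_card I τ
        unfold hostU at e2
        convert e2
      · intro A B
        have e1 := hostU_count I τ (fun e => e.2.2 (A e.1) = B e.2.1)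
        have e3 := hI.2 A B
        unfold Sat at e3
        unfold hostU at e1
        convert e3 using 1
        congr 1
        convert e1)
    (fun I hI τ => by
      refine h2 _ ⟨uwell_host I τ, ?_, ?_⟩
      · refine hI.1.trans (le_of_eq ?_)
        symm
        have e2 := hostU_card I τ
        unfold hostU at e2
        convert e2
      obtain ⟨-, A, B, hAB⟩ := hI
      refine ⟨A, B, ?_⟩
      have e1 := hostU_count I τ (fun e => ¬ e.2.2 (A e.1) = B e.2.1)
      unfold hostU at e1
      unfold Sat at hAB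
      convert hAB using 1
      congr 1
      convert e1)
  have : Nonempty (R × (Con N q → Fin K)) := ⟨(Classical.arbitrary R, fun _ => 0)⟩
  obtain ⟨ω, hω⟩ := H' ε hε _ l (fun ω => prog_conv (hprog ω)) ⟨f, fun _ => 1, hf, fun I hI => by
    have h3 := (hdec I).1 hI
    beta_reduce
    convert (show 2 * Fintype.card (R × (Con N q → Fin K)) ≤
      3 * (univ.filter fun ω => 1 ≤ f ω I).card by omega), fun I hI => by
    have h3 := (hdec I).2 hI
    beta_reduce
    convert (show 2 * Fintype.card (R × (Con N q → Fin K)) ≤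
      3 * (univ.filter fun ω => f ω I < 1).card by omega)⟩
  refine hω.trans ?_
  have h3 : (l ω).length ≤ 3 * s + 2 := (hlen ω).trans (by have := hs ω.1; omega)
  exact_mod_cast h3

open Classical in
/-- a monotone function tells the two sets of games apart -/
theorem mono_exists {N q K m : ℕ} (hm : 0 < m) (δ ε : ℝ) (h : ε + δ < 1) :
    ∃ F : (UPos N q K → Bool) → Prop, (∀ x y, (∀ e, x e = true → y e = true) → F x → F y) ∧
      ∀ x, (UNoM m δ x → F x) ∧ (UYesM m ε x → ¬ F x) := by
  refine ⟨fun x => ∀ A B : Fin N → Fin q, (1 - δ) * (m : ℝ) ≤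
    ((univ.filter fun e => x e = true ∧ ¬ e.1.2.2 (A e.1.1) = B e.1.2.1).card : ℝ), ?_, ?_⟩
  · intro x y hxy hx A B
    refine (hx A B).trans ?_
    exact_mod_cast Finset.card_le_card fun e he => by
      rw [Finset.mem_filter] at he ⊢
      exact ⟨he.1, hxy e he.2.1, he.2.2⟩
  · intro x
    constructor
    · rintro ⟨-, h1, h2⟩ A B
      have h3 := h2 A B
      have h4 := Finset.card_filter_add_card_filter_not (s := univ.filter fun e => x e = true)
        (p := fun e => e.1.2.2 (A e.1.1) = B e.1.2.1)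
      rw [Finset.filter_filter, Finset.filter_filter, h1] at h4
      have h5 : ((univ.filter fun e => x e = true ∧ e.1.2.2 (A e.1.1) = B e.1.2.1).card : ℝ) +
        ((univ.filter fun e => x e = true ∧ ¬ e.1.2.2 (A e.1.1) = B e.1.2.1).card : ℝ) = m := by
        exact_mod_cast h4
      linarith
    · rintro ⟨-, -, A, B, h2⟩ h3
      have h4 := h3 A B
      have hm0 : (0 : ℝ) < m := by exact_mod_cast hm
      nlinarith

end Pool.Agent.R900.FN
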